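import Pool.Agent.Lib.MP_606be1_nt.Sharp
import Pool.Agent.Lib.MP_606be1_nt.FM.Main

/-! Every nondecreasing function occurs as the excess of the count over the main term. -/

namespace Pool.Agent.Lib.MP_606be1_nt.SP

open Real Set Filter

/-- jump points of a nondecreasing function that grows at least like a logarithm -/
lemma jumps (G : ℝ → ℕ) (hG : Monotone G) (Y : ℕ → ℝ) (hY : ∀ j, 1 ≤ Y j ∧ j < G (Y j)) :
    ∃ X : ℕ → ℝ, ∀ j, 1 ≤ X j ∧ X j ≤ Y j ∧ (∀ y, 1 ≤ y → j < G y → X j ≤ y) ∧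
      ∀ y, X j < y → j < G y := by
  refine ⟨fun j => sInf {y | 1 ≤ y ∧ j < G y}, fun j => ?_⟩
  have hb : BddBelow {y | 1 ≤ y ∧ j < G y} := ⟨1, fun y hy => hy.1⟩
  have hn : {y | 1 ≤ y ∧ j < G y}.Nonempty := ⟨Y j, hY j⟩
  refine ⟨le_csInf hn fun y hy => hy.1, csInf_le hb (hY j), fun y h1 h2 => csInf_le hb ⟨h1, h2⟩,
    fun y hy => ?_⟩
  obtain ⟨z, hz, hzy⟩ := exists_lt_of_csInf_lt hn hy
  exact hz.2.trans_le (hG hzy.le)

/-- the difference at a convergent is at least a constant times `α^q / q'` -/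
lemma conv_dist_ge {α β : ℝ} (hα : 1 < α) (hβ : 1 < β) (hi : Irrational (log α / log β)) (j : ℕ) :
    min (log β) 1 * α ^ q α β j ≤ 4 * |α ^ q α β j - β ^ pp α β j| * q α β (j + 1) := by
  have hb := log_pos hβ
  set x := |α ^ q α β j - β ^ pp α β j| with hx
  have x0 : 0 ≤ x := abs_nonneg _
  have p0 : 0 < α ^ q α β j := by positivity
  have q1 : (1 : ℝ) ≤ q α β (j + 1) := by exact_mod_cast Rat.den_pos _
  rcases le_total (α ^ q α β j) (2 * x) with hn | hn
  · have e1 : min (log β) 1 * α ^ q α β j ≤ 1 * α ^ q α β j := by gcongr; exact min_le_right _ _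
    have e2 : 4 * x * 1 ≤ 4 * x * q α β (j + 1) := by gcongr
    linarith
  · have e1 := approx_of_mem hα hβ (x := x) (n := q α β j) (m := pp α β j) (le_refl x) hn
    rw [q_cast' hi, pp_cast' hα hβ hi, abs_err hi] at e1
    have e2 := le_E hi j
    rw [← q_cast' hi] at e2
    have e3 : min (log β) 1 * α ^ q α β j ≤ log β * α ^ q α β j := by
      gcongr; exact min_le_left _ _
    have e4 : log β * α ^ q α β j * 1 ≤
        log β * α ^ q α β j * (2 * (q α β (j + 1) * E (log α / log β) j)) := by gcongr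
    have e5 := mul_le_mul_of_nonneg_right e1 (zero_le_one.trans q1)
    linarith

/-- prescribing the size of the differences at the convergents -/
lemma exists_sizes {β : ℝ} (hβ : 1 < β) {u v : ℝ} (hu : 1 < u) (huv : u < v) (X : ℕ → ℝ)
    (hX : ∀ j, 1 ≤ X j ∧ X j ≤ exp ((j + 1) * (log u / 2))) :
    ∃ α ∈ Ioo u v, Irrational (log α / log β) ∧ ∃ (c : ℝ) (N : ℕ), 1 ≤ c ∧ ∀ j ≥ N,
      X j ≤ c * |α ^ q α β j - β ^ pp α β j| ∧ |α ^ q α β j - β ^ pp α β j| ≤ c * X j := by
  have hb := log_pos hβ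
  obtain ⟨α, hmem, hi, N, hN⟩ := exists_alpha hβ X (fun j => by linarith [(hX j).1]) hu.le huv
  have hα : 1 < α := hu.trans hmem.1
  have ha := log_pos hα
  have hua : log u ≤ log α := log_le_log (by linarith) hmem.1.le
  have m0 : 0 < min (log β) 1 := lt_min hb one_pos
  obtain ⟨Y, hY⟩ := ev_exp (a := log α / 2) (by positivity)
    (D := 2 * β * exp (log α / 2)) (by positivity) one_pos
  have c1 : 0 < 8 * β / min (log β) 1 := by positivity
  have c2 : 0 < β * (β * log β) := by positivity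
  refine ⟨α, hmem, hi, 1 + 8 * β / min (log β) 1 + β * (β * log β), N + Y, by linarith,
    fun j hj => ?_⟩
  set c := 1 + 8 * β / min (log β) 1 + β * (β * log β) with hc
  obtain ⟨x1, x2⟩ := hX j
  obtain ⟨n1, n2⟩ := hN j (by omega)
  obtain ⟨p1, p2⟩ := pow_cmp hα hβ hi j
  have q1 : (0 : ℝ) < q α β (j + 1) := by exact_mod_cast Rat.den_pos _
  have h1 : (j : ℝ) ≤ q α β j := by exact_mod_cast le_q hi j
  have h2 : (Y : ℝ) ≤ j := by exact_mod_cast (by omega : Y ≤ j)
  have h3 := hY (q α β j) (h2.trans h1)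
  set y : ℝ := (q α β j : ℝ) with hy
  have y0 : 0 ≤ y := Nat.cast_nonneg _
  have h4 : X j ≤ exp (log α / 2) * exp (y * (log α / 2)) := by
    rw [← exp_add]
    refine x2.trans (exp_le_exp.2 ?_)
    have : (j + 1) * (log u / 2) ≤ (y + 1) * (log α / 2) := by
      gcongr
      exact (half_pos (log_pos hu)).le
    linarith
  have h5 : α ^ q α β j = exp (y * (log α / 2)) * exp (y * (log α / 2)) := by
    rw [pow_eq_exp hα, ← exp_add]
    congr 1
    ring
  have h6 : 2 * β * exp (log α / 2) * y * 1 ≤ 2 * β * exp (log α / 2) * y * exp (1 * √y) := by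
    gcongr
    exact one_le_exp (by positivity)
  have h7 : 2 * β * y * X j ≤ α ^ q α β j := by
    calc 2 * β * y * X j ≤ 2 * β * y * (exp (log α / 2) * exp (y * (log α / 2))) := by gcongr
      _ = 2 * β * exp (log α / 2) * y * 1 * exp (y * (log α / 2)) := by ring
      _ ≤ _ := by rw [h5]; gcongr; exact h6.trans h3
  have h8 : 2 * y * X j ≤ β ^ pp α β j :=
    le_of_mul_le_mul_left (a := β) (by linarith) (by linarith)
  set w := |α ^ q α β j - β ^ pp α β j| with hw
  have w0 : 0 ≤ w := abs_nonneg _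
  constructor
  · have e1 := conv_dist_ge hα hβ hi j
    have e2 : X j * q α β (j + 1) ≤ 2 * (β * α ^ q α β j) := by linarith
    have e3 := mul_le_mul_of_nonneg_left e2 m0.le
    have e4 := mul_le_mul_of_nonneg_left e1 (by linarith : 0 ≤ 2 * β)
    have e5 : min (log β) 1 * X j ≤ 8 * β * w :=
      le_of_mul_le_mul_right (by rw [hw]; linarith) q1
    have e6 : X j ≤ 8 * β / min (log β) 1 * w := by
      rw [div_mul_eq_mul_div, le_div_iff₀ m0]
      linarith
    exact e6.trans (by gcongr; linarith)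
  · have e1 := conv_dist_le hα hβ hi j
    have e2 : α ^ q α β j ≤ β * (X j * q α β (j + 1)) := p1.trans (by gcongr)
    have e3 := mul_le_mul_of_nonneg_right e2 (by positivity : 0 ≤ β * log β)
    have e4 : w ≤ β * (β * log β) * X j := le_of_mul_le_mul_right (by rw [hw]; linarith) q1
    exact e4.trans (by gcongr; linarith)

theorem spectrum {β : ℝ} (hβ : 1 < β) {u v : ℝ} (hu : 1 ≤ u) (huv : u < v) (F : ℝ → ℕ)
    (hF : Monotone F) : ∃ α, u < α ∧ α < v ∧ ∃ C : ℝ, 1 ≤ C ∧ ∀ᶠ x in atTop, ∃ k : ℕ,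
      (T α β x).encard = k ∧
      F (x / C) - C * log x ≤ k - log x ^ 2 / (log α * log β) ∧
      k - log x ^ 2 / (log α * log β) ≤ F (C * x) + C * log x := by
  set s := (u + v) / 2 with hs
  have s1 : 1 < s := by linarith
  have a0 := log_pos s1
  set G : ℝ → ℕ := fun y => F y + ⌊2 / log s * log (max y 1)⌋₊ with hG
  have Gm : Monotone G := fun y z h => by
    refine add_le_add (hF h) (Nat.floor_le_floor ?_)
    gcongr
  obtain ⟨X, hX⟩ := jumps G Gm (fun j => exp ((j + 1) * (log s / 2))) fun j => by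
    have e : 1 ≤ exp ((j + 1) * (log s / 2)) := one_le_exp (by positivity)
    refine ⟨e, lt_of_lt_of_le ?_ (Nat.le_add_left _ _)⟩
    rw [max_eq_left e, log_exp]
    refine Nat.lt_of_succ_le (Nat.le_floor (le_of_eq ?_))
    push_cast
    field_simp
  obtain ⟨α, hmem, hi, c, N, c1, hc⟩ := exists_sizes hβ s1 (v := v) (by linarith) X
    fun j => ⟨(hX j).1, (hX j).2.1⟩
  have hα : 1 < α := s1.trans hmem.1
  obtain ⟨C, hC⟩ := FM.formula hα hβ
  have l0 : 0 ≤ log (2 * c) := log_nonneg (by linarith)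
  have t0 : 0 < 2 / log s := by positivity
  set B : ℝ := 2 / log s * (log (2 * c) + 1) with hB
  have B0 : 0 ≤ B := by positivity
  have N0 : (0 : ℝ) ≤ N := Nat.cast_nonneg _
  have C0 := abs_nonneg C
  refine ⟨α, by linarith [hmem.1], hmem.2, 2 * c + |C| + N + B, by linarith, ?_⟩
  set W := 2 * c + |C| + N + B with hW
  filter_upwards [hC, eventually_ge_atTop c, tendsto_log_atTop.eventually_ge_atTop 1]
    with x hx xc hL
  have x1 : 1 ≤ x := c1.trans xc
  have up : FM.D α β x ⊆ ↑(Finset.range N ∪ Finset.range (G (2 * c * x))) := fun j hj => by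
    simp only [Finset.coe_union, Finset.coe_range, mem_union, mem_Iio]
    refine (lt_or_ge j N).imp id fun h => (hX j).2.2.2 _ ?_
    have e1 : |α ^ q α β j - β ^ pp α β j| ≤ x := (FM.mem_D hα hβ hi).1 hj
    have e2 := mul_le_mul_of_nonneg_left e1 (by linarith : 0 ≤ c)
    have e3 : 0 < c * x := by positivity
    linarith [(hc j h).1]
  have hD : (FM.D α β x).Finite := (Finset.finite_toSet _).subset up
  have lo : ↑(Finset.Ico N (G (x / c))) ⊆ FM.D α β x := fun j hj => by
    obtain ⟨h1, h2⟩ := Finset.mem_Ico.1 hj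
    have e1 := (hX j).2.2.1 _ ((one_le_div (by linarith)).2 xc) h2
    rw [le_div_iff₀ (by linarith)] at e1
    exact (FM.mem_D hα hβ hi).2 (le_trans (hc j h1).2 (by linarith))
  have hT := hx.1.2 hD
  obtain ⟨k1, k2⟩ := abs_le.1 (hx.2 hT)
  have u1 := ncard_le_ncard up (Finset.finite_toSet _)
  rw [ncard_coe_finset] at u1
  have u2 : (FM.D α β x).ncard ≤ N + G (2 * c * x) :=
    u1.trans ((Finset.card_union_le _ _).trans (by simp))
  have u3 : ((FM.D α β x).ncard : ℝ) ≤ N + (F (2 * c * x) +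
      (⌊2 / log s * log (max (2 * c * x) 1)⌋₊ : ℕ)) := by exact_mod_cast u2
  have cx : 1 ≤ 2 * c * x := one_le_mul_of_one_le_of_one_le (by linarith) x1
  rw [max_eq_left cx, log_mul (by linarith) (by linarith)] at u3
  have u4 := Nat.floor_le (show 0 ≤ 2 / log s * (log (2 * c) + log x) by positivity)
  have u5 : 2 / log s * (log (2 * c) + log x) ≤ B * log x := by
    have : log (2 * c) ≤ log (2 * c) * log x := le_mul_of_one_le_right l0 hL
    rw [hB, mul_assoc]
    gcongr
    linarith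
  have u6 : (F (2 * c * x) : ℝ) ≤ F (W * x) := by
    exact_mod_cast hF (mul_le_mul_of_nonneg_right (by linarith) (by linarith))
  have v1 := ncard_le_ncard lo hD
  rw [ncard_coe_finset, Nat.card_Ico] at v1
  have v2 : F (x / c) ≤ (FM.D α β x).ncard + N := by
    have : F (x / c) ≤ G (x / c) := Nat.le_add_right _ _
    omega
  have v3 : (F (x / c) : ℝ) ≤ (FM.D α β x).ncard + N := by exact_mod_cast v2
  have v4 : (F (x / W) : ℝ) ≤ F (x / c) := by
    exact_mod_cast hF (div_le_div_of_nonneg_left (by linarith) (by linarith) (by linarith))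
  have w1 : C * log x ≤ |C| * log x := by gcongr; exact le_abs_self C
  have w2 : (N : ℝ) ≤ N * log x := le_mul_of_one_le_right N0 hL
  have w3 : W * log x = 2 * (c * log x) + |C| * log x + N * log x + B * log x := by rw [hW]; ring
  have w4 : 0 ≤ c * log x := by positivity
  have w5 : 0 ≤ B * log x := by positivity
  exact ⟨(T α β x).ncard, hT.cast_ncard_eq.symm, by linarith, by linarith⟩

end Pool.Agent.Lib.MP_606be1_nt.SP
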